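import Pool.Agent.H.MP_ce2c94_gt.D3.DChk
import Pool.Agent.H.MP_ce2c94_gt.ck.AData

set_option autoImplicit false

/-!
# The torus of revolution: bounds, linear part, residual
-/

namespace Pool.MP_ce2c94_gt.AD

open Pool.Agent.H.MP_ce2c94_gt.h46 Pool.MP_ce2c94_gt.D3C

/-- the data -/
def dat : Dat := ⟨10, cS, cP, cQ, cZ, vP, vQ, vZ, g0, gj, gm, gjj, gjm, gmm⟩

/-- the parameters of the linear part -/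
def lin : Lin := ⟨200, 1000, ⟨10486, 48368, 5243, 892406, 48368, 10486⟩, 1, 40000, 1, 0⟩

/-- numerators of the bounds, denominator 1000 -/
def sn : SN where
  C := ⟨⟨3384, 44⟩, ⟨1, 1⟩, ⟨1493, 47⟩⟩
  B := ⟨⟨1, 220⟩, ⟨3384, 44⟩, ⟨1, 232⟩⟩
  a := ⟨⟨1517, 153⟩, ⟨1, 1⟩, ⟨1382, 138⟩⟩
  b := ⟨⟨1, 115⟩, ⟨1006, 24⟩, ⟨1, 90⟩⟩
  p := ⟨⟨4281, 2657⟩, ⟨1, 1⟩, ⟨3343, 2322⟩⟩
  q := ⟨⟨1, 1288⟩, ⟨1517, 153⟩, ⟨1, 1101⟩⟩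
  w := ⟨⟨1006, 2298⟩, ⟨1, 228⟩, ⟨1, 1790⟩⟩
  n := ⟨⟨1171, 123⟩, ⟨1, 71⟩, ⟨1366, 135⟩⟩
  ebb := ⟨979, 39⟩
  eab := ⟨1, 1⟩
  eaa := ⟨834, 74⟩
  ebB := ⟨2985, 77⟩
  eaB := ⟨1, 1⟩
  g := ⟨1991, 260⟩
  T := ⟨⟨5579, 6742⟩, ⟨1, 272⟩, ⟨3410, 6068⟩⟩

theorem chkD_dat : chkD 120 361 9 180 0 11 ⟨40, 90, 0⟩ ⟨36, 90, 0⟩ dat lin sn = true := by
  decide +kernel

/-- The residual is at most `17 / 10^10`. -/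
theorem chkR_dat : chkR 160 401 9 200 0 11 ⟨50, 100, 0⟩ dat 17 (10 ^ 10) = true := by
  decide +kernel

end Pool.MP_ce2c94_gt.AD
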