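import Pool.Agent.H.MP_ce2c94_gt.ck.ADual
import Pool.Agent.H.MP_ce2c94_gt.D3.ExistR
import Pool.Agent.H.MP_ce2c94_gt.D3.DCert

set_option autoImplicit false

/-!
# The rotational torus: the rational constants of the certificate and their inequalities
-/

namespace Pool.MP_ce2c94_gt.AN

open D3W D3S D3E W93

/-- weight `a j ^ 2 + b m ^ 2 + s` and the norms of the jet maps -/
def P : Prm where
  a := 47 / 40
  b := 100
  s := 100
  d0 := 1 / 100
  d1 := 46127 / 1000000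
  d2 := 1 / 200
  d3 := 40 / 47
  d4 := 46127 / 1000000
  d5 := 1 / 100

/-- constants of the existence theorem; the slots are those of `ck/ADual` -/
def c : Cst where
  P := P
  S := AD.sn.slots 1000
  Y := 17 / 10 ^ 10
  e := 1 / 40000
  z := 1 / 5
  α := 127
  r := 22 / 10 ^ 10
  κ := 1

/-- the tail of the approximate linearization -/
def t : Tl where
  K := 10
  nG := 1 / 1000
  nH := 1 / 1000
  n0 := 35 / 2
  n1 := 3 / 100
  n2 := 1 / 1000
  n4 := 1 / 1000
  Q1 := 11 / 10000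
  Q2 := 29 / 1000
  e0 := 1 / 2000
  e1 := 1 / 10000
  e2 := 1 / 10000
  e3 := 1 / 100000
  e4 := 1 / 100000
  e5 := 1 / 5000

theorem c_le : (c.S.tF c.ρ).c ≤ 10 := by decide +kernel

theorem rho_eq : c.ρ = 2794 / 10 ^ 10 := by decide +kernel

theorem Pok : P.Ok := by constructor <;> decide +kernel

theorem cnum : c.Num := by
  refine { P := Pok, e0 := ?_, z0 := ?_, α0 := ?_, r0 := ?_, κ0 := ?_, h1 := ?_, h2 := ?_ } <;>
    decide +kernel

/-- the bounds of the jet maps against the multipliers of `ck/ADual` -/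
theorem dn_le (j : Fin 6) : P.dn j ≤ (AD.lin.M.f j : ℝ) / 2 ^ 20 := by
  have h : ∀ j : Fin 6, (![P.d0, P.d1, P.d2, P.d3, P.d4, P.d5] : Fin 6 → ℚ) j ≤
      (AD.lin.M.f j : ℚ) / 2 ^ 20 := by decide +kernel
  have h1 := h j
  have h2 : P.dn j = (((![P.d0, P.d1, P.d2, P.d3, P.d4, P.d5] : Fin 6 → ℚ) j : ℚ) : ℝ) := by
    fin_cases j <;> rfl
  have h3 := (Rat.cast_le (K := ℝ)).mpr h1
  rw [h2]
  refine h3.trans_eq ?_
  push_cast
  rfl

/-- the inequalities of the tail, for the hypotheses of `exists_rinv` -/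
theorem t_c1 : t.nG ^ 2 + t.n4 ^ 2 / (4 * P.a * P.b) ≤ t.Q1 ^ 2 := by decide +kernel
theorem t_c2 : t.n1 ^ 2 / P.a + t.n2 ^ 2 / P.b ≤ t.Q2 ^ 2 := by decide +kernel
theorem t_z : t.Q1 + t.nH + t.Q2 / t.K + t.n0 / t.K ^ 2 ≤ c.z := by decide +kernel
theorem t_α : 1 + P.s / t.K ^ 2 ≤ c.α := by decide +kernel

end Pool.MP_ce2c94_gt.AN
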