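import Pool.Agent.H.MP_ce2c94_gt.D3.ColTab
import Pool.Agent.H.MP_ce2c94_gt.ck.AData

set_option autoImplicit false

/-!
# The torus of revolution: the norms of the approximate coefficients and the ten columns
-/

namespace Pool.MP_ce2c94_gt.AD

open Pool.Agent.H.MP_ce2c94_gt.h46

/-- The norms: `nG = 40 * 9600 / 1024 / 376000 ≤ 1 / 1000`, `nH = 384000 / 1024 / 376000 ≤ 1 / 1000`,
`n0 = 17920 / 1024 = 35 / 2`, `n1 = 30 / 1024 ≤ 3 / 100`, `n2 = n4 = 1 / 1024 ≤ 1 / 1000`. -/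
theorem tail_ok : tailChk 64 141 8 70 0 12 g0 gj gm gjj gjm gmm 47 4000 40
    10 9600 384000 17920 30 1 1 = true := by
  decide +kernel

/-- The columns `(j, 0)`, `j ≤ 9`. -/
def cols : List (ℕ × ℕ × Base) := [(0, 0, a0), (1, 0, a1), (2, 0, a2), (3, 0, a3), (4, 0, a4),
  (5, 0, a5), (6, 0, a6), (7, 0, a7), (8, 0, a8), (9, 0, a9)]

/-- `z = 204 / 1024 ≤ 1 / 5`, `α = 127`. -/
theorem cols_ok : colsChk 88 141 8 70 0 12 24 40 0 g0 gj gm gjj gjm gmm 47 4000 4000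
    204 10 (127 * 40) 0 cols = true := by
  decide +kernel

end Pool.MP_ce2c94_gt.AD
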