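import Pool.Agent.H.MP_ce2c94_gt.D3.Inv
import Pool.Agent.H.MP_ce2c94_gt.ck.ANum
import Pool.Agent.H.MP_ce2c94_gt.ck.ATail

set_option autoImplicit false

/-!
# The torus of revolution: the approximate right inverse
-/

namespace Pool.MP_ce2c94_gt.AD

open Pool.Agent.H.MP_ce2c94_gt.h46 D3W D3S D3E W93

noncomputable section

/-- the property of the columns -/
def Good (x : ℕ × ℕ) : Prop :=
  ColOK (((47 : ℕ) : ℝ) / ((40 : ℕ) : ℝ)) (((4000 : ℕ) : ℝ) / ((40 : ℕ) : ℝ))
    (((4000 : ℕ) : ℝ) / ((40 : ℕ) : ℝ)) (gW g0 gj gm gjj gjm gmm) AN.c.α AN.c.z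
    ((x.1 : ℤ), (x.2 : ℤ))

/-- the modes of the columns in a list -/
def modes (l : List (ℕ × ℕ × Base)) : List (ℕ × ℕ) := l.map fun x => (x.1, x.2.1)

/-- from one check to `ColOK` with the constants of the certificate -/
theorem good_of {b W' h I0 J0 k : ℕ} {l : List (ℕ × ℕ × Base)}
    (hc : colsChk b W' h I0 J0 k 24 40 0 g0 gj gm gjj gjm gmm 47 4000 4000 204 10 (127 * 40) 0 l = true) :
    ∀ x ∈ modes l, Good x := by
  intro x hx
  obtain ⟨y, hy, rfl⟩ := List.mem_map.1 hx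
  exact ColOK.mono (colsChk_sound (d := 40) (by norm_num) (by norm_num) (by norm_num)
    (by norm_num) hc y hy) (by norm_num [AN.c]) (by norm_num [AN.c])

theorem good_all : ∀ x ∈ modes cols, Good x := good_of cols_ok


theorem cover_ok : coverChk 47 4000 4000 10 1 (modes cols) = true := by
  decide +kernel

/-- **The approximate right inverse.** -/
theorem hasInv : HasInv AN.c.P (gW g0 gj gm gjj gjm gmm) AN.c.α AN.c.z :=
  hasInv_of_checks (an := 47) (bn := 4000) (sn := 4000) (d := 40) (kn := 4000) (J := 10) (M := 1)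
    (K := 10) (Q1 := 11 / 10000) (Q2 := 29 / 1000) AN.Pok (by norm_num) (by norm_num) (by norm_num)
    (by norm_num [AN.c, AN.P]) (by norm_num [AN.c, AN.P]) (by norm_num [AN.c, AN.P]) tail_ok
    (by norm_num) (by norm_num) (by norm_num) (by norm_num [AN.c, AN.P])
    (by norm_num [AN.c, AN.P]) (by norm_num [AN.c, AN.P]) (by norm_num [AN.c, AN.P]) cover_ok
    (by norm_num) good_all

/-- **The approximate right inverse**, the seven statements. -/
theorem inv : Inv AN.c AN.t (gW g0 gj gm gjj gjm gmm) := by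
  have Pa : (AN.c.P.a : ℝ) = ((47 : ℕ) : ℝ) / ((40 : ℕ) : ℝ) := by norm_num [AN.c, AN.P]
  have Pb : (AN.c.P.b : ℝ) = ((4000 : ℕ) : ℝ) / ((40 : ℕ) : ℝ) := by norm_num [AN.c, AN.P]
  have Ps : (AN.c.P.s : ℝ) = ((4000 : ℕ) : ℝ) / ((40 : ℕ) : ℝ) := by norm_num [AN.c, AN.P]
  obtain ⟨t1, t2, t3, t4, t5, t6⟩ := tailChk_sound (d := 40) (by norm_num) (by norm_num)
    (by norm_num) tail_ok
  refine ⟨?_, ?_, t3.trans (by norm_num [AN.t]), t4.trans (by norm_num [AN.t]),
    t5.trans (by norm_num [AN.t]), t6.trans (by norm_num [AN.t]), fun j m h => ?_⟩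
  · rw [Pa, Pb]; exact t1.trans (by norm_num [AN.t])
  · rw [Pa, Pb]; exact t2.trans (by norm_num [AN.t])
  · refine cols_of_cover cover_ok (d := 40) (by norm_num) Pa Pb (by norm_num [AN.t])
      (Q := fun k => ColOK AN.c.P.a AN.c.P.b AN.c.P.s (gW g0 gj gm gjj gjm gmm) AN.c.α
        AN.c.z k) ?_ j m h
    rw [Pa, Pb, Ps]
    exact good_all

end

end Pool.MP_ce2c94_gt.AD
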