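import Pool.Agent.H.MP_ce2c94_gt.h13.PClose
import Pool.Agent.H.MP_ce2c94_gt.ck.AData

/-!
Norms of the direction, of its first derivatives and of the surface, first torus.
-/

namespace Pool.MP_ce2c94_gt.AD

open D3

theorem vnrm_check : nrmChk 56 49 6 24 0 14 (vList vP vQ vZ 5 17 1) = true := by
  decide +kernel

theorem vbd : VBd (tabHat vP vQ vZ) (5 : ℕ) (17 : ℕ) (1 : ℕ) := vbd_of_check vnrm_check

theorem cnrm_check : nrmChk 72 141 8 70 0 12 [(cP, 0, 0, 27, 3), (cQ, 0, 0, 1, 3),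
    (cZ, 0, 0, 12, 3)] = true := by
  decide +kernel

theorem norm_P : ‖(tabHat cP cQ cZ).P.f‖ ≤ 27 / 8 := by
  have h := nrmChk_sound cnrm_check (cP, 0, 0, 27, 3) (by simp)
  have e : (tabHat cP cQ cZ).P.f = baseW cP 0 0 := rfl
  rw [e]
  norm_num at h
  exact h

theorem norm_Q : ‖(tabHat cP cQ cZ).Q.f‖ ≤ 1 / 8 := by
  have h := nrmChk_sound cnrm_check (cQ, 0, 0, 1, 3) (by simp)
  have e : (tabHat cP cQ cZ).Q.f = baseW cQ 0 0 := rfl
  rw [e]
  norm_num at h ⊢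
  exact h

theorem norm_Z : ‖(tabHat cP cQ cZ).Z.f‖ ≤ 3 / 2 := by
  have h := nrmChk_sound cnrm_check (cZ, 0, 0, 12, 3) (by simp)
  have e : (tabHat cP cQ cZ).Z.f = baseW cZ 0 0 := rfl
  rw [e]
  norm_num at h
  exact h

end Pool.MP_ce2c94_gt.AD
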