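import Pool.Agent.H.MP_ce2c94_gt.h28.EmbA
import Pool.Agent.H.MP_ce2c94_gt.h16.PosP

/-!
# Positivity near the tables of the torus of revolution
-/

namespace D3

open Pool.MP_ce2c94_gt Pool.MP_ce2c94_gt.D3W

/-- closeness implies nearness -/
theorem Close.near {d δ : ℝ} {h t : Hat W} (H : Close d h t) (hd : d ≤ δ) :
    Pool.MP_ce2c94_gt.h28.Near h t δ :=
  ⟨H.P.trans hd, H.Pu.trans hd, H.Pt.trans hd, H.Q.trans hd, H.Qu.trans hd, H.Qt.trans hd,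
    H.Z.trans hd, H.Zu.trans hd, H.Zt.trans hd⟩

/-- The four positivity facts near the tables of the torus of revolution
(`N = 10`, `S0 = 3`, `c = 5`). -/
theorem posW_A {h : Hat W} (hcl : Close (1 / 2 ^ 16) h (tabHat AD.cP AD.cQ AD.cZ)) :
    PosW h.P.f ∧ PosW (h.cosq eu eu' 3 5) ∧ PosW (h.ang 10) ∧ PosW (h.jac 10 3) := by
  obtain ⟨p1, p2, p3, p4⟩ := Pool.MP_ce2c94_gt.h28.nearA (hcl.near le_rfl)
  exact ⟨p1, p2, p3, p4⟩

/-- the same with the slack `1 / 2 ^ 20` -/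
theorem posW_A' {h : Hat W} (hcl : Close (1 / 2 ^ 20) h (tabHat AD.cP AD.cQ AD.cZ)) :
    PosW h.P.f ∧ PosW (h.cosq eu eu' 3 5) ∧ PosW (h.ang 10) ∧ PosW (h.jac 10 3) := by
  obtain ⟨p1, p2, p3, p4⟩ := Pool.MP_ce2c94_gt.h28.nearA (hcl.near (by norm_num))
  exact ⟨p1, p2, p3, p4⟩

end D3
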