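import Pool.Agent.H.MP_ce2c94_gt.ck.SolOf
import Pool.Agent.H.MP_ce2c94_gt.ck.ADual
import Pool.Agent.H.MP_ce2c94_gt.ck.AInv
import Pool.Agent.H.MP_ce2c94_gt.D3.ExistD

set_option autoImplicit false

/-!
The torus of revolution: the zero and the solution.
-/

namespace Pool.MP_ce2c94_gt.AD

open D3 D3W D3S D3E D3C W93

theorem sgn : dat.Sgn :=
  ⟨⟨rfl, rfl⟩, ⟨rfl, rfl⟩, ⟨rfl, rfl⟩, ⟨rfl, rfl⟩, ⟨rfl, rfl⟩, ⟨rfl, rfl⟩, ⟨rfl, rfl⟩⟩

/-- the zero -/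
theorem exists_zero : IsUnit (baseJ cS).f ∧ ∃ y ∈ WS, ‖y‖ ≤ AN.c.ρ ∧
    (bgOf 10 (baseJ cS).f (tabHat cP cQ cZ) (tabHat vP vQ vZ)).F (Bg.jt AN.c.P.D y) = 0 :=
  exists_zero_chk sgn AN.cnum (by norm_num) (by norm_num) rfl (by decide +kernel)
    (by decide +kernel) (by decide +kernel) (by decide +kernel) (by decide +kernel)
    (by decide +kernel) (by decide +kernel) (by decide +kernel) (by decide +kernel) chkD_dat
    chkR_dat hasInv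

end Pool.MP_ce2c94_gt.AD

namespace Pool.MP_ce2c94_gt

open D3 D3W D3S D3E

/-- **The first torus.** -/
theorem solA : ∃ y, Sol (tabHat AD.cP AD.cQ AD.cZ) (tabHat AD.vP AD.vQ AD.vZ) 10 (baseJ AD.cS).f
    AN.P AN.c.ρ 3 5 y :=
  AD.exists_sol AD.exists_zero

end Pool.MP_ce2c94_gt
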