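import Pool.Agent.H.MP_ce2c94_gt.D3.ColTab
import Pool.Agent.H.MP_ce2c94_gt.ck.DData
import Pool.Agent.H.MP_ce2c94_gt.ck.DColData

set_option autoImplicit false

/-!
# The torus with threefold symmetry: columns of the approximate inverse, dcol_0 to dcol_6
-/

namespace Pool.MP_ce2c94_gt.DD

open Pool.Agent.H.MP_ce2c94_gt.h46

theorem dcol_0_ok : colsChk 88 295 15 147 46 11 32 120 36 g0 gj gm gjj gjm gmm
    23 180 2000 1 1 6600 0 dcol_0 = true := by
  decide +kernel

theorem dcol_1_ok : colsChk 88 295 15 147 46 11 32 120 36 g0 gj gm gjj gjm gmm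
    23 180 2000 1 1 6600 0 dcol_1 = true := by
  decide +kernel

theorem dcol_2_ok : colsChk 88 295 15 147 46 11 32 120 36 g0 gj gm gjj gjm gmm
    23 180 2000 1 1 6600 0 dcol_2 = true := by
  decide +kernel

theorem dcol_3_ok : colsChk 88 295 15 147 46 11 32 120 36 g0 gj gm gjj gjm gmm
    23 180 2000 1 1 6600 0 dcol_3 = true := by
  decide +kernel

theorem dcol_4_ok : colsChk 88 295 15 147 46 11 32 120 36 g0 gj gm gjj gjm gmm
    23 180 2000 1 1 6600 0 dcol_4 = true := by
  decide +kernel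

theorem dcol_5_ok : colsChk 88 295 15 147 46 11 32 120 36 g0 gj gm gjj gjm gmm
    23 180 2000 1 1 6600 0 dcol_5 = true := by
  decide +kernel

theorem dcol_6_ok : colsChk 88 295 15 147 46 11 32 120 36 g0 gj gm gjj gjm gmm
    23 180 2000 1 1 6600 0 dcol_6 = true := by
  decide +kernel

end Pool.MP_ce2c94_gt.DD
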