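import Pool.Agent.H.MP_ce2c94_gt.D3.ColTab
import Pool.Agent.H.MP_ce2c94_gt.ck.DData
import Pool.Agent.H.MP_ce2c94_gt.ck.DColData

set_option autoImplicit false

/-!
# The torus with threefold symmetry: columns of the approximate inverse, dcolw_0 to dcolw_3
-/

namespace Pool.MP_ce2c94_gt.DD

open Pool.Agent.H.MP_ce2c94_gt.h46

theorem dcolw_0_ok : colsChk 96 351 16 175 56 11 32 120 36 g0 gj gm gjj gjm gmm
    23 180 2000 1 1 6600 0 dcolw_0 = true := by
  decide +kernel

theorem dcolw_1_ok : colsChk 96 351 16 175 56 11 32 120 36 g0 gj gm gjj gjm gmm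
    23 180 2000 1 1 6600 0 dcolw_1 = true := by
  decide +kernel

theorem dcolw_2_ok : colsChk 96 351 16 175 56 11 32 120 36 g0 gj gm gjj gjm gmm
    23 180 2000 1 1 6600 0 dcolw_2 = true := by
  decide +kernel

theorem dcolw_3_ok : colsChk 96 351 16 175 56 11 32 120 36 g0 gj gm gjj gjm gmm
    23 180 2000 1 1 6600 0 dcolw_3 = true := by
  decide +kernel

end Pool.MP_ce2c94_gt.DD
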