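import Pool.Agent.H.MP_ce2c94_gt.D3.DChk
import Pool.Agent.H.MP_ce2c94_gt.ck.DData

set_option autoImplicit false

/-!
# The torus with threefold symmetry: the data of `DChk`
-/

namespace Pool.MP_ce2c94_gt.DD

open Pool.Agent.H.MP_ce2c94_gt.h46 Pool.MP_ce2c94_gt.D3C

/-- the data -/
def dat : Dat := ⟨3, cS, cP, cQ, cZ, vP, vQ, vZ, g0, gj, gm, gjj, gjm, gmm⟩

/-- the parameters of the linear part -/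
def lin : Lin := ⟨200, 10000, ⟨10486, 48896, 17480, 911806, 162970, 116509⟩, 3, 25000, 1178, 10⟩

/-- numerators of the bounds, denominator 10000 -/
def sn : SN where
  C := ⟨⟨46770, 1470⟩, ⟨7300, 1010⟩, ⟨21400, 1460⟩⟩
  B := ⟨⟨75330, 17920⟩, ⟨88420, 16150⟩, ⟨31440, 14240⟩⟩
  a := ⟨⟨20510, 3250⟩, ⟨5270, 1680⟩, ⟨19050, 3090⟩⟩
  b := ⟨⟨10400, 2820⟩, ⟨13440, 1940⟩, ⟨5790, 2170⟩⟩
  p := ⟨⟨119700, 74520⟩, ⟨36330, 35920⟩, ⟨89210, 70330⟩⟩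
  q := ⟨⟨66830, 45080⟩, ⟨48360, 29380⟩, ⟨39920, 38690⟩⟩
  w := ⟨⟨84660, 62030⟩, ⟨60020, 43190⟩, ⟨36780, 44570⟩⟩
  n := ⟨⟨14970, 3770⟩, ⟨8180, 3040⟩, ⟨18130, 3560⟩⟩
  ebb := ⟨11530, 1980⟩
  eab := ⟨1100, 435⟩
  eaa := ⟨10240, 2300⟩
  ebB := ⟨77360, 18430⟩
  eaB := ⟨8610, 2790⟩
  g := ⟨48290, 27200⟩
  T := ⟨⟨198550, 189850⟩, ⟨94550, 118260⟩, ⟨99720, 166170⟩⟩

end Pool.MP_ce2c94_gt.DD
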