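import Pool.Agent.H.MP_ce2c94_gt.ck.DDat

set_option autoImplicit false

/-!
# The torus with threefold symmetry: bounds, linear part, nondegeneracy
-/

namespace Pool.MP_ce2c94_gt.DD

open Pool.MP_ce2c94_gt.D3C

theorem chkD_dat :
    chkD 102 529 17 264 92 10 ⟨44, 130, 44⟩ ⟨40, 130, 44⟩ dat lin sn = true := by
  decide +kernel

end Pool.MP_ce2c94_gt.DD
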