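import Pool.Agent.H.MP_ce2c94_gt.h36.GChk
import Pool.Agent.H.MP_ce2c94_gt.ck.DData

set_option autoImplicit false

namespace Pool.MP_ce2c94_gt.DD

open GK

/-- kernel check of the coefficient of `Dm φ` -/
theorem ckG2 : wrap 100 521 17 260 88 10 (fun P => chk2 P 43 130 44 3 cS cP cQ cZ vP vQ vZ
    gm 858993 30) = true := by decide +kernel

end Pool.MP_ce2c94_gt.DD
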