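import Pool.Agent.H.MP_ce2c94_gt.h36.GChk
import Pool.Agent.H.MP_ce2c94_gt.ck.DData

set_option autoImplicit false

namespace Pool.MP_ce2c94_gt.DD

open GK

/-- kernel check of the second order coefficients -/
theorem ckG345 : wrap 100 521 17 260 88 10 (fun P => chk345 P 43 130 44 3 cS cP cQ cZ vP vQ vZ
    gjj gjm gmm 10737 30 21474 30 75161 30) = true := by decide +kernel

end Pool.MP_ce2c94_gt.DD
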