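import Pool.Agent.H.MP_ce2c94_gt.D3.ExistR

set_option autoImplicit false

/-!
# The torus with threefold symmetry: the rational constants of the certificate and their inequalities
-/

namespace Pool.MP_ce2c94_gt.DN

open D3W D3S D3E W93

/-- weight `a j ^ 2 + b m ^ 2 + s` and the norms of the jet maps -/
def P : Prm where
  a := 23 / 20
  b := 9
  s := 100
  d0 := 1 / 100
  d1 := 4663 / 100000
  d2 := 1667 / 100000
  d3 := 20 / 23
  d4 := 7771 / 50000
  d5 := 1 / 9

/-- bounds of the leaves and of the intermediate quantities -/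
def S : Slots where
  C := ![(4677 / 1000, 147 / 1000), (730 / 1000, 101 / 1000), (2140 / 1000, 146 / 1000)]
  B := ![(7533 / 1000, 1792 / 1000), (8842 / 1000, 1615 / 1000), (3144 / 1000, 1424 / 1000)]
  a := ![(2051 / 1000, 325 / 1000), (527 / 1000, 168 / 1000), (1905 / 1000, 309 / 1000)]
  b := ![(1040 / 1000, 282 / 1000), (1344 / 1000, 194 / 1000), (579 / 1000, 217 / 1000)]
  p := ![(11970 / 1000, 7452 / 1000), (3633 / 1000, 3592 / 1000), (8921 / 1000, 7033 / 1000)]
  q := ![(6683 / 1000, 4508 / 1000), (4836 / 1000, 2938 / 1000), (3992 / 1000, 3869 / 1000)]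
  w := ![(8466 / 1000, 6203 / 1000), (6002 / 1000, 4319 / 1000), (3678 / 1000, 4457 / 1000)]
  n := ![(1497 / 1000, 377 / 1000), (818 / 1000, 304 / 1000), (1813 / 1000, 356 / 1000)]
  ebb := (1153 / 1000, 198 / 1000)
  eab := (110 / 1000, 435 / 10000)
  eaa := (1024 / 1000, 230 / 1000)
  ebB := (7736 / 1000, 1843 / 1000)
  eaB := (861 / 1000, 279 / 1000)
  g := (4829 / 1000, 2720 / 1000)
  T := ![(19855 / 1000, 18985 / 1000), (9455 / 1000, 11826 / 1000), (9972 / 1000, 16617 / 1000)]

/-- constants of the existence theorem -/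
def c : Cst where
  P := P
  S := S
  Y := 3 / 10000000000
  e := 3 / 25000
  z := 27 / 50
  α := 330
  r := 9 / 10000000000
  κ := 23 / 20

/-- constants of the approximate linearization -/
def t : Tl where
  K := 25
  nG := 87 / 500
  nH := 1 / 500
  n0 := 83
  n1 := 161 / 50
  n2 := 41 / 5
  n4 := 981 / 1000
  Q1 := 29 / 125
  Q2 := 4061 / 1000
  e0 := 1 / 200
  e1 := 3 / 5000
  e2 := 1 / 1250
  e3 := 1 / 100000
  e4 := 1 / 50000
  e5 := 7 / 100000

theorem c_le : (S.tF c.ρ).c ≤ 260 := by decide +kernel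

theorem rho_eq : c.ρ = 297 / 1000000000 := by decide +kernel

theorem Pok : P.Ok := by constructor <;> decide +kernel

theorem cnum : c.Num := by
  refine { P := Pok, e0 := ?_, z0 := ?_, α0 := ?_, r0 := ?_, κ0 := ?_, h1 := ?_, h2 := ?_ } <;>
    decide +kernel

theorem tnum : t.Num c := by constructor <;> decide +kernel

end Pool.MP_ce2c94_gt.DN
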