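import Pool.Agent.H.MP_ce2c94_gt.ck.DG0
import Pool.Agent.H.MP_ce2c94_gt.ck.DG1
import Pool.Agent.H.MP_ce2c94_gt.ck.DG2
import Pool.Agent.H.MP_ce2c94_gt.ck.DG345
import Pool.Agent.H.MP_ce2c94_gt.ck.DNum
import Pool.Agent.H.MP_ce2c94_gt.D3.ExistD

set_option autoImplicit false

/-!
# The linear part of the map at the background with threefold symmetry
-/

namespace Pool.MP_ce2c94_gt.DD

open D3 D3S D3W GK Pool.Agent.H.MP_ce2c94_gt.h46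

/-- the background -/
noncomputable def bg : Bg W := bgOf 3 (baseJ cS).f (tabHat cP cQ cZ) (tabHat vP vQ vZ)

theorem e0 : ‖bg.dF.d 0 - baseW g0 0 0‖ ≤ ((5368709 : ℕ) : ℝ) / 2 ^ 30 := by
  obtain ⟨P, hP, hn, h⟩ := wrap_sound ckG0
  exact chk0_sound hn hP h

theorem e1 : ‖bg.dF.d 1 - baseW gj 0 0‖ ≤ ((644245 : ℕ) : ℝ) / 2 ^ 30 := by
  obtain ⟨P, hP, hn, h⟩ := wrap_sound ckG1
  exact chk1_sound hn hP h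

theorem e2 : ‖bg.dF.d 2 - baseW gm 0 0‖ ≤ ((858993 : ℕ) : ℝ) / 2 ^ 30 := by
  obtain ⟨P, hP, hn, h⟩ := wrap_sound ckG2
  exact chk2_sound hn hP h

theorem e345 : ‖bg.dF.d 3 - baseW gjj 0 0‖ ≤ ((10737 : ℕ) : ℝ) / 2 ^ 30 ∧
    ‖bg.dF.d 4 - baseW gjm 0 0‖ ≤ ((21474 : ℕ) : ℝ) / 2 ^ 30 ∧
    ‖bg.dF.d 5 - baseW gmm 0 0‖ ≤ ((75161 : ℕ) : ℝ) / 2 ^ 30 := by
  obtain ⟨P, hP, hn, h⟩ := wrap_sound ckG345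
  exact chk345_sound hn hP (by norm_num) h

/-- the six bounds with the constants of `DN.t` -/
theorem ebounds : ‖bg.dF.d 0 - gW g0 gj gm gjj gjm gmm 0‖ ≤ DN.t.e0 ∧
    ‖bg.dF.d 1 - gW g0 gj gm gjj gjm gmm 1‖ ≤ DN.t.e1 ∧
    ‖bg.dF.d 2 - gW g0 gj gm gjj gjm gmm 2‖ ≤ DN.t.e2 ∧
    ‖bg.dF.d 3 - gW g0 gj gm gjj gjm gmm 3‖ ≤ DN.t.e3 ∧
    ‖bg.dF.d 4 - gW g0 gj gm gjj gjm gmm 4‖ ≤ DN.t.e4 ∧
    ‖bg.dF.d 5 - gW g0 gj gm gjj gjm gmm 5‖ ≤ DN.t.e5 := by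
  obtain ⟨e3, e4, e5⟩ := e345
  refine ⟨e0.trans ?_, e1.trans ?_, e2.trans ?_, e3.trans ?_, e4.trans ?_, e5.trans ?_⟩ <;>
    (simp only [DN.t]; norm_num)

/-- the sum of the errors -/
theorem lin : ∑ j, ‖bg.dF.d j - gW g0 gj gm gjj gjm gmm j‖ * DN.c.P.dn j ≤ DN.c.e := by
  obtain ⟨h0, h1, h2, h3, h4, h5⟩ := ebounds
  refine D3E.lin_of DN.Pok h0 h1 h2 h3 h4 h5 ?_
  simp only [DN.t, DN.c, DN.P]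
  norm_num

end Pool.MP_ce2c94_gt.DD
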