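import Pool.Agent.H.MP_ce2c94_gt.D3.ColTab
import Pool.Agent.H.MP_ce2c94_gt.ck.DData

set_option autoImplicit false

/-!
# The torus with threefold symmetry: the norms of the approximate coefficients
-/

namespace Pool.MP_ce2c94_gt.DD

open Pool.Agent.H.MP_ce2c94_gt.h46

/-- The norms with `q = 10`: `nG = 20 * 73764 / 1024 / 8280 ≤ 87 / 500`,
`nH = 16957 / 1024 / 8280 ≤ 1 / 500`, `n0 = 84992 / 1024 = 83`, `n1 = 3297 / 1024 ≤ 161 / 50`,
`n2 = 8396 / 1024 ≤ 41 / 5`, `n4 = 1004 / 1024 ≤ 981 / 1000`. -/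
theorem tail_ok : tailChk 64 241 15 120 36 11 g0 gj gm gjj gjm gmm 23 180 20
    10 73764 16957 84992 3297 8396 1004 = true := by
  decide +kernel

end Pool.MP_ce2c94_gt.DD
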