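import Pool.Agent.H.MP_ce2c94_gt.D3.Inv
import Pool.Agent.H.MP_ce2c94_gt.ck.DNum
import Pool.Agent.H.MP_ce2c94_gt.ck.DTail
import Pool.Agent.H.MP_ce2c94_gt.ck.DCol1
import Pool.Agent.H.MP_ce2c94_gt.ck.DCol2
import Pool.Agent.H.MP_ce2c94_gt.ck.DCol3
import Pool.Agent.H.MP_ce2c94_gt.ck.DCol4
import Pool.Agent.H.MP_ce2c94_gt.ck.DCol5

set_option autoImplicit false

/-!
# The torus with threefold symmetry: the approximate right inverse
-/

namespace Pool.MP_ce2c94_gt.DD

open Pool.Agent.H.MP_ce2c94_gt.h46 D3W D3S D3E W93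

noncomputable section

/-- the property of the columns -/
def Good (x : ℕ × ℕ) : Prop :=
  ColOK (((23 : ℕ) : ℝ) / ((20 : ℕ) : ℝ)) (((180 : ℕ) : ℝ) / ((20 : ℕ) : ℝ))
    (((2000 : ℕ) : ℝ) / ((20 : ℕ) : ℝ)) (gW g0 gj gm gjj gjm gmm) DN.c.α DN.c.z
    ((x.1 : ℤ), (x.2 : ℤ))

/-- the modes of the columns in a list -/
def modes (l : List (ℕ × ℕ × Base)) : List (ℕ × ℕ) := l.map fun x => (x.1, x.2.1)

/-- from one check to `ColOK` with the constants of the certificate -/
theorem good_of {b W' h I0 J0 k : ℕ} {l : List (ℕ × ℕ × Base)}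
    (hc : colsChk b W' h I0 J0 k 32 120 36 g0 gj gm gjj gjm gmm 23 180 2000 1 1 6600 0 l = true) :
    ∀ x ∈ modes l, Good x := by
  intro x hx
  obtain ⟨y, hy, rfl⟩ := List.mem_map.1 hx
  exact ColOK.mono (colsChk_sound (d := 20) (by norm_num) (by norm_num) (by norm_num)
    (by norm_num) hc y hy) (by norm_num [DN.c]) (by norm_num [DN.c])

theorem good_append {l l' : List (ℕ × ℕ)} (h : ∀ x ∈ l, Good x) (h' : ∀ x ∈ l', Good x) :
    ∀ x ∈ l ++ l', Good x := fun x hx => (List.mem_append.1 hx).elim (h x) (h' x)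

/-- all the modes -/
def allModes : List (ℕ × ℕ) :=
  modes dcol_0 ++ (modes dcol_1 ++ (modes dcol_2 ++ (modes dcol_3 ++ (modes dcol_4 ++ (
  modes dcol_5 ++ (modes dcol_6 ++ (modes dcol_7 ++ (modes dcol_8 ++ (modes dcol_9 ++ (
  modes dcol_10 ++ (modes dcol_11 ++ (modes dcol_12 ++ (modes dcol_13 ++ (modes dcol_14 ++ (
  modes dcol_15 ++ (modes dcol_16 ++ (modes dcol_17 ++ (modes dcol_18 ++ (modes dcol_19 ++ (
  modes dcol_20 ++ (modes dcol_21 ++ (modes dcol_22 ++ (modes dcol_23 ++ (modes dcol_24 ++ (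
  modes dcol_25 ++ (modes dcolw_0 ++ (modes dcolw_1 ++ (modes dcolw_2 ++ modes dcolw_3
  ))))))))))))))))))))))))))))

theorem good_all : ∀ x ∈ allModes, Good x :=
  good_append (good_of dcol_0_ok) (good_append (good_of dcol_1_ok) (
  good_append (good_of dcol_2_ok) (good_append (good_of dcol_3_ok) (
  good_append (good_of dcol_4_ok) (good_append (good_of dcol_5_ok) (
  good_append (good_of dcol_6_ok) (good_append (good_of dcol_7_ok) (
  good_append (good_of dcol_8_ok) (good_append (good_of dcol_9_ok) (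
  good_append (good_of dcol_10_ok) (good_append (good_of dcol_11_ok) (
  good_append (good_of dcol_12_ok) (good_append (good_of dcol_13_ok) (
  good_append (good_of dcol_14_ok) (good_append (good_of dcol_15_ok) (
  good_append (good_of dcol_16_ok) (good_append (good_of dcol_17_ok) (
  good_append (good_of dcol_18_ok) (good_append (good_of dcol_19_ok) (
  good_append (good_of dcol_20_ok) (good_append (good_of dcol_21_ok) (
  good_append (good_of dcol_22_ok) (good_append (good_of dcol_23_ok) (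
  good_append (good_of dcol_24_ok) (good_append (good_of dcol_25_ok) (
  good_append (good_of dcolw_0_ok) (good_append (good_of dcolw_1_ok) (
  good_append (good_of dcolw_2_ok) (good_of dcolw_3_ok)))))))))))))))))))))))))))))


theorem cover_ok : coverChk 23 180 12500 24 9 allModes = true := by
  decide +kernel

/-- **The approximate right inverse.** -/
theorem hasInv : HasInv DN.c.P (gW g0 gj gm gjj gjm gmm) DN.c.α DN.c.z :=
  hasInv_of_checks (an := 23) (bn := 180) (sn := 2000) (d := 20) (kn := 12500) (J := 24) (M := 9)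
    (K := 25) (Q1 := 29 / 125) (Q2 := 4061 / 1000) DN.Pok (by norm_num) (by norm_num) (by norm_num)
    (by norm_num [DN.c, DN.P]) (by norm_num [DN.c, DN.P]) (by norm_num [DN.c, DN.P]) tail_ok
    (by norm_num) (by norm_num) (by norm_num) (by norm_num [DN.c, DN.P])
    (by norm_num [DN.c, DN.P]) (by norm_num [DN.c, DN.P]) (by norm_num [DN.c, DN.P]) cover_ok
    (by norm_num) good_all

/-- **The approximate right inverse**, the seven statements. -/
theorem inv : Inv DN.c DN.t (gW g0 gj gm gjj gjm gmm) := by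
  have Pa : (DN.c.P.a : ℝ) = ((23 : ℕ) : ℝ) / ((20 : ℕ) : ℝ) := by norm_num [DN.c, DN.P]
  have Pb : (DN.c.P.b : ℝ) = ((180 : ℕ) : ℝ) / ((20 : ℕ) : ℝ) := by norm_num [DN.c, DN.P]
  have Ps : (DN.c.P.s : ℝ) = ((2000 : ℕ) : ℝ) / ((20 : ℕ) : ℝ) := by norm_num [DN.c, DN.P]
  obtain ⟨t1, t2, t3, t4, t5, t6⟩ := tailChk_sound (d := 20) (by norm_num) (by norm_num)
    (by norm_num) tail_ok
  refine ⟨?_, ?_, t3.trans (by norm_num [DN.t]), t4.trans (by norm_num [DN.t]),
    t5.trans (by norm_num [DN.t]), t6.trans (by norm_num [DN.t]), fun j m h => ?_⟩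
  · rw [Pa, Pb]; exact t1.trans (by norm_num [DN.t])
  · rw [Pa, Pb]; exact t2.trans (by norm_num [DN.t])
  · refine cols_of_cover cover_ok (d := 20) (by norm_num) Pa Pb (by norm_num [DN.t])
      (Q := fun k => ColOK DN.c.P.a DN.c.P.b DN.c.P.s (gW g0 gj gm gjj gjm gmm) DN.c.α
        DN.c.z k) ?_ j m h
    rw [Pa, Pb, Ps]
    exact good_all

end

end Pool.MP_ce2c94_gt.DD
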