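import Pool.Agent.H.MP_ce2c94_gt.ck.DSolOf
import Pool.Agent.H.MP_ce2c94_gt.ck.DG345
import Pool.Agent.H.MP_ce2c94_gt.ck.DG0
import Pool.Agent.H.MP_ce2c94_gt.ck.DG1
import Pool.Agent.H.MP_ce2c94_gt.ck.DG2

set_option autoImplicit false

/-!
The torus with threefold symmetry: the error of the approximate linear part, and the solution from
the bounds and the residual.
-/

namespace Pool.MP_ce2c94_gt

open D3 D3W D3S D3E D3C W93 GK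

theorem DD.lin0 : ‖DD.bg.dF.d 0 - (baseJ DD.g0).f‖ ≤ ((5368709 / 2 ^ 30 : ℚ) : ℝ) := by
  obtain ⟨P, hP, hn, h⟩ := wrap_sound DD.ckG0
  have := chk0_sound hn hP h
  push_cast at this ⊢
  exact this

theorem DD.lin1 : ‖DD.bg.dF.d 1 - (baseJ DD.gj).f‖ ≤ ((644245 / 2 ^ 30 : ℚ) : ℝ) := by
  obtain ⟨P, hP, hn, h⟩ := wrap_sound DD.ckG1
  have := chk1_sound hn hP h
  push_cast at this ⊢
  exact this

theorem DD.lin2 : ‖DD.bg.dF.d 2 - (baseJ DD.gm).f‖ ≤ ((858993 / 2 ^ 30 : ℚ) : ℝ) := by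
  obtain ⟨P, hP, hn, h⟩ := wrap_sound DD.ckG2
  have := chk2_sound hn hP h
  push_cast at this ⊢
  exact this

theorem DD.lin345 : ‖DD.bg.dF.d 3 - (baseJ DD.gjj).f‖ ≤ ((10737 / 2 ^ 30 : ℚ) : ℝ) ∧
    ‖DD.bg.dF.d 4 - (baseJ DD.gjm).f‖ ≤ ((21474 / 2 ^ 30 : ℚ) : ℝ) ∧
    ‖DD.bg.dF.d 5 - (baseJ DD.gmm).f‖ ≤ ((75161 / 2 ^ 30 : ℚ) : ℝ) := by
  obtain ⟨P, hP, hn, h⟩ := wrap_sound DD.ckG345
  have := chk345_sound hn hP (by norm_num) h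
  push_cast at this ⊢
  exact this

/-- **The second torus from the bounds and the residual.** -/
theorem DD.sol_of_res (ok : DD.bg.Ok DN.P.D DN.S) (res : ‖DD.bg.dF.v‖ ≤ DN.c.Y) :
    ∃ y, Sol (tabHat DD.cP DD.cQ DD.cZ) (tabHat DD.vP DD.vQ DD.vZ) 3 (baseJ DD.cS).f DN.P DN.c.ρ
      3 5 y :=
  DD.sol_of_six ok res DD.lin0 DD.lin1 DD.lin2 DD.lin345.1 DD.lin345.2.1 DD.lin345.2.2
    (by decide +kernel) (by decide +kernel)

end Pool.MP_ce2c94_gt
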