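import Pool.Agent.H.MP_ce2c94_gt.h13.PClose
import Pool.Agent.H.MP_ce2c94_gt.ck.DData

/-!
Norms of the direction and of its first derivatives, second torus.
-/

namespace Pool.MP_ce2c94_gt.DD

open D3

theorem vnrm_check : nrmChk 60 193 15 96 34 11 (vList vP vQ vZ 15 154 32) = true := by
  decide +kernel

theorem vbd : VBd (tabHat vP vQ vZ) (15 : ℕ) (154 : ℕ) (32 : ℕ) := vbd_of_check vnrm_check

end Pool.MP_ce2c94_gt.DD
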