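import Pool.Agent.H.MP_ce2c94_gt.D3.DCert
import Pool.Agent.H.MP_ce2c94_gt.ck.DDual
import Pool.Agent.H.MP_ce2c94_gt.ck.DNum

set_option autoImplicit false

/-!
# The torus with threefold symmetry: all the bounds of the leaves and nodes
-/

namespace Pool.MP_ce2c94_gt.DD

open Pool.MP_ce2c94_gt.D3C Pool.MP_ce2c94_gt.D3S D3W

theorem slots_sn : sn.slots 10000 = DN.S := by
  simp only [SN.slots, sn, SV.q, SP.q, DN.S]
  norm_num

theorem dn_le (j : Fin 6) : DN.P.dn j ≤ (lin.M.f j : ℝ) / 2 ^ 20 := by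
  fin_cases j <;> simp [D3E.Prm.dn, DN.P, M6.f, lin] <;> norm_num

theorem all_dat : dat.B.Ok DN.P.D DN.S ∧
    ∑ j, ‖dat.B.dF.d j - dat.G j‖ * DN.P.dn j ≤ (3 : ℝ) / 25000 ∧
    ‖dat.B.dF.d 3 - algebraMap ℝ W (1178 / 2 ^ 10)‖ < 1178 / 2 ^ 10 := by
  have h := okD (by norm_num) DN.Pok.norm_D dn_le chkD_dat
  rw [show lin.d = 10000 from rfl, slots_sn] at h
  refine ⟨h.1, ?_, ?_⟩
  · have := h.2.1
    simpa [lin] using this
  · have := h.2.2
    simpa [lin] using this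

end Pool.MP_ce2c94_gt.DD
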