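import Pool.Agent.H.MP_ce2c94_gt.h13.Orig
import Pool.Agent.H.MP_ce2c94_gt.ck.DData

/-!
The value of `P` at the origin for the tables of the second torus.
-/

namespace Pool.MP_ce2c94_gt.DD

open D3

theorem P_orig : ((457 : ℕ) : ℝ) / (100 : ℕ) ≤ (evp (0, 0) (baseJ cP).f).re :=
  orig_ge cP rfl rfl (by norm_num) (by decide +kernel)

end Pool.MP_ce2c94_gt.DD
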