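import Pool.Agent.H.MP_ce2c94_gt.h28.EmbD
import Pool.Agent.H.MP_ce2c94_gt.ck.APos

/-!
# Positivity near the tables of the torus with threefold symmetry, slack `1 / 2 ^ 18`
-/

namespace D3

open Pool.MP_ce2c94_gt Pool.MP_ce2c94_gt.D3W

/-- The four positivity facts near the tables (`N = 3`, `S0 = 3`, `c = 5`). -/
theorem posW_D18 {h : Hat W} (hcl : Close (1 / 2 ^ 18) h (tabHat DD.cP DD.cQ DD.cZ)) :
    PosW h.P.f ∧ PosW (h.cosq eu eu' 3 5) ∧ PosW (h.ang 3) ∧ PosW (h.jac 3 3) := by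
  obtain ⟨p1, p2, p3, p4⟩ := Pool.MP_ce2c94_gt.h28.nearD (hcl.near le_rfl)
  exact ⟨p1, p2, p3, p4⟩

end D3
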