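import Pool.Agent.H.MP_ce2c94_gt.D3.DCert
import Pool.Agent.H.MP_ce2c94_gt.ck.DDat
import Pool.Agent.H.MP_ce2c94_gt.ck.DNum

set_option autoImplicit false

/-!
# The torus with threefold symmetry: the residual
-/

namespace Pool.MP_ce2c94_gt

open Pool.Agent.H.MP_ce2c94_gt.h46 Pool.MP_ce2c94_gt.D3C

set_option maxRecDepth 100000 in
/-- kernel check of the residual -/
theorem DD.chkR_dat : chkR 134 801 18 400 124 9 ⟨62, 200, 62⟩ DD.dat 3 (10 ^ 10) = true := by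
  decide +kernel

/-- **The residual.** -/
theorem DR.res : ‖(D3.bgOf 3 (D3.baseJ DD.cS).f (D3.tabHat DD.cP DD.cQ DD.cZ)
    (D3.tabHat DD.vP DD.vQ DD.vZ)).dF.v‖ ≤ DN.c.Y := by
  have h := resD (by decide) DD.chkR_dat
  have e : ((DN.c.Y : ℚ) : ℝ) = ((3 : ℕ) : ℝ) / ((10 ^ 10 : ℕ) : ℝ) := by
    simp only [DN.c]
    push_cast
    norm_num
  rw [e]
  exact h

end Pool.MP_ce2c94_gt
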