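import Pool.Agent.H.MP_ce2c94_gt.ck.SolOf
import Pool.Agent.H.MP_ce2c94_gt.ck.DInv
import Pool.Agent.H.MP_ce2c94_gt.ck.DDual
import Pool.Agent.H.MP_ce2c94_gt.ck.DRes
import Pool.Agent.H.MP_ce2c94_gt.D3.Inv

set_option autoImplicit false

/-!
The torus with threefold symmetry: the zero and the solution.
-/

namespace Pool.MP_ce2c94_gt

open D3 D3W D3S D3E D3C W93

theorem DN.S_eq : DN.S = DD.sn.slots 10000 := by
  simp only [DN.S, SN.slots, DD.sn, SV.q, SP.q]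
  norm_num

theorem DD.sgn : DD.dat.Sgn :=
  ⟨⟨rfl, rfl⟩, ⟨rfl, rfl⟩, ⟨rfl, rfl⟩, ⟨rfl, rfl⟩, ⟨rfl, rfl⟩, ⟨rfl, rfl⟩, ⟨rfl, rfl⟩⟩

/-- the zero -/
theorem DD.exists_zero : IsUnit DD.bg.s ∧ ∃ y ∈ WS, ‖y‖ ≤ DN.c.ρ ∧
    DD.bg.F (Bg.jt DN.c.P.D y) = 0 :=
  exists_zero_has (Λ := DD.lin) (S := DD.sn) DD.sgn DN.cnum (by norm_num) (by norm_num)
    DN.S_eq (by decide +kernel)
    (by decide +kernel) (by decide +kernel) (by decide +kernel) (by decide +kernel)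
    (by decide +kernel) (by decide +kernel) (by decide +kernel) (by decide +kernel) DD.chkD_dat
    DD.chkR_dat DD.hasInv

/-- **The second torus.** -/
theorem solD : ∃ y, Sol (tabHat DD.cP DD.cQ DD.cZ) (tabHat DD.vP DD.vQ DD.vZ) 3 (baseJ DD.cS).f
    DN.P DN.c.ρ 3 5 y :=
  DD.exists_sol DD.exists_zero

end Pool.MP_ce2c94_gt
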