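import Pool.Agent.H.MP_ce2c94_gt.ck.SolOf
import Pool.Agent.H.MP_ce2c94_gt.ck.DInv
import Pool.Agent.H.MP_ce2c94_gt.D3.Inv

set_option autoImplicit false

/-!
The torus with threefold symmetry: the solution from the numerical hypotheses.
-/

namespace Pool.MP_ce2c94_gt

open D3 D3W D3S D3E D3C W93

theorem DD.bg_sym : DD.bg.Sym :=
  bgOf_sym (tabHat_par _ _ _ DD.par7.P DD.par7.Q DD.par7.Z)
    (tabHat_par _ _ _ DD.par7.vP DD.par7.vQ DD.par7.vZ)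
    ((par_base DD.cS (by norm_num [DD.cS]) (by norm_num [DD.cS])).cast (by norm_num [DD.cS])
      (by norm_num [DD.cS])) 3

/-- **The second torus from the numerical hypotheses.** -/
theorem DD.sol_of (ok : DD.bg.Ok DN.P.D DN.S) (res : ‖DD.bg.dF.v‖ ≤ DN.c.Y)
    (lin : ∑ j, ‖DD.bg.dF.d j - gW DD.g0 DD.gj DD.gm DD.gjj DD.gjm DD.gmm j‖ * DN.P.dn j ≤
      DN.c.e) (unit : ‖DD.bg.dF.d 3 - algebraMap ℝ W DN.c.κ‖ < DN.c.κ) :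
    ∃ y, Sol (tabHat DD.cP DD.cQ DD.cZ) (tabHat DD.vP DD.vQ DD.vZ) 3 (baseJ DD.cS).f DN.P DN.c.ρ
      3 5 y :=
  DD.exists_sol (exists_zero_of DN.cnum DD.bg_sym ok res lin unit DD.hasInv)

/-- **The second torus from the numerical hypotheses, with the six errors.** -/
theorem DD.sol_of_six (ok : DD.bg.Ok DN.P.D DN.S) (res : ‖DD.bg.dF.v‖ ≤ DN.c.Y)
    {e0 e1 e2 e3 e4 e5 : ℚ} (h0 : ‖DD.bg.dF.d 0 - (baseJ DD.g0).f‖ ≤ e0)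
    (h1 : ‖DD.bg.dF.d 1 - (baseJ DD.gj).f‖ ≤ e1) (h2 : ‖DD.bg.dF.d 2 - (baseJ DD.gm).f‖ ≤ e2)
    (h3 : ‖DD.bg.dF.d 3 - (baseJ DD.gjj).f‖ ≤ e3) (h4 : ‖DD.bg.dF.d 4 - (baseJ DD.gjm).f‖ ≤ e4)
    (h5 : ‖DD.bg.dF.d 5 - (baseJ DD.gmm).f‖ ≤ e5)
    (he : e0 * DN.P.d0 + e1 * DN.P.d1 + e2 * DN.P.d2 + e3 * DN.P.d3 + e4 * DN.P.d4 + e5 * DN.P.d5
      ≤ DN.c.e) (hu : DN.P.a * (DN.t.nH + DN.t.nG) + e3 < DN.P.a) :
    ∃ y, Sol (tabHat DD.cP DD.cQ DD.cZ) (tabHat DD.vP DD.vQ DD.vZ) 3 (baseJ DD.cS).f DN.P DN.c.ρ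
      3 5 y := by
  have he' : ((e0 * DN.P.d0 + e1 * DN.P.d1 + e2 * DN.P.d2 + e3 * DN.P.d3 + e4 * DN.P.d4 +
      e5 * DN.P.d5 : ℚ) : ℝ) ≤ (DN.c.e : ℝ) := by exact_mod_cast he
  have hu' : ((DN.P.a * (DN.t.nH + DN.t.nG) + e3 : ℚ) : ℝ) < (DN.P.a : ℝ) := by exact_mod_cast hu
  push_cast at he' hu'
  have hκ : DN.c.κ = DN.P.a := by decide +kernel
  refine DD.sol_of ok res (lin_of DN.Pok h0 h1 h2 h3 h4 h5 he') ?_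
  rw [hκ]
  exact unit_of (by have := DN.Pok.a0; exact_mod_cast this) DD.inv.nG DD.inv.nH h3 hu'

end Pool.MP_ce2c94_gt
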