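import Pool.Agent.H.MP_ce2c94_gt.h16.PosP
import Pool.Agent.H.MP_ce2c94_gt.ck.DData

set_option autoImplicit false

/-!
# The torus with threefold symmetry: the norms of the tables of the position and of the direction
-/

namespace Pool.MP_ce2c94_gt.DP

open D3 DD Pool.Agent.H.MP_ce2c94_gt.h46 Pool.MP_ce2c94_gt.D3W

/-- the nine tables of three base functions -/
def progV : List Ins := [.tab 0 0 0, .tab 1 0 0, .tab 2 0 0, .tab 0 1 0, .tab 1 1 0, .tab 2 1 0,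
  .tab 0 0 1, .tab 1 0 1, .tab 2 0 1]

theorem V_check : check 56 193 14 96 34 10 [vP, vQ, vZ] progV
    [⟨0, 15, 0⟩, ⟨1, 15, 0⟩, ⟨2, 15, 0⟩, ⟨3, 154, 0⟩, ⟨4, 154, 0⟩, ⟨5, 154, 0⟩,
      ⟨6, 32, 0⟩, ⟨7, 32, 0⟩, ⟨8, 32, 0⟩] = true := by decide +kernel

/-- The norms of the tables of the direction and of their first derivatives. -/
theorem V_norm : (‖(tabHat vP vQ vZ).P.f‖ ≤ 15 ∧ ‖(tabHat vP vQ vZ).Q.f‖ ≤ 15 ∧
      ‖(tabHat vP vQ vZ).Z.f‖ ≤ 15) ∧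
    (‖(tabHat vP vQ vZ).P.fu‖ ≤ 154 ∧ ‖(tabHat vP vQ vZ).Q.fu‖ ≤ 154 ∧
      ‖(tabHat vP vQ vZ).Z.fu‖ ≤ 154) ∧
    ‖(tabHat vP vQ vZ).P.ft‖ ≤ 32 ∧ ‖(tabHat vP vQ vZ).Q.ft‖ ≤ 32 ∧
      ‖(tabHat vP vQ vZ).Z.ft‖ ≤ 32 := by
  have h := check_sound (algP 56 193 14 (I0 := 96) (J0 := 34) (k := 10) (by norm_num)) V_check
  refine ⟨⟨?_, ?_, ?_⟩, ⟨?_, ?_, ?_⟩, ?_, ?_, ?_⟩
  · exact (h ⟨0, 15, 0⟩ (by simp) (baseW vP 0 0) rfl).trans (by norm_num)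
  · exact (h ⟨1, 15, 0⟩ (by simp) (baseW vQ 0 0) rfl).trans (by norm_num)
  · exact (h ⟨2, 15, 0⟩ (by simp) (baseW vZ 0 0) rfl).trans (by norm_num)
  · exact (h ⟨3, 154, 0⟩ (by simp) (baseW vP 1 0) rfl).trans (by norm_num)
  · exact (h ⟨4, 154, 0⟩ (by simp) (baseW vQ 1 0) rfl).trans (by norm_num)
  · exact (h ⟨5, 154, 0⟩ (by simp) (baseW vZ 1 0) rfl).trans (by norm_num)
  · exact (h ⟨6, 32, 0⟩ (by simp) (baseW vP 0 1) rfl).trans (by norm_num)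
  · exact (h ⟨7, 32, 0⟩ (by simp) (baseW vQ 0 1) rfl).trans (by norm_num)
  · exact (h ⟨8, 32, 0⟩ (by simp) (baseW vZ 0 1) rfl).trans (by norm_num)

/-- The value of the first component at the origin. -/
theorem P_zero : (457 / 100 : ℝ) ≤ (evp (0, 0) (tabHat cP cQ cZ).P.f).re := by
  have h1 : (evp (0, 0) (tabHat cP cQ cZ).P.f).re = ((2 : ℝ) ^ 62)⁻¹ * (4 * (sumB cP : ℝ)) := by
    have := evp_baseW cP rfl rfl
    change (evp (0, 0) (baseW cP 0 0)).re = _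
    rw [this, Complex.ofReal_re]
    rfl
  have h2 : (457 * 2 ^ 62 : ℤ) ≤ 400 * sumB cP := by decide +kernel
  have h3 : (457 * 2 ^ 62 : ℝ) ≤ 400 * (sumB cP : ℝ) := by exact_mod_cast h2
  rw [h1, inv_mul_eq_div, le_div_iff₀ (by positivity)]
  linarith

end Pool.MP_ce2c94_gt.DP
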