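import Pool.Agent.H.MP_ce2c94_gt.h13.SolOf
import Pool.Agent.H.MP_ce2c94_gt.ck.DNrm
import Pool.Agent.H.MP_ce2c94_gt.ck.DOrig
import Pool.Agent.H.MP_ce2c94_gt.ck.ANrm
import Pool.Agent.H.MP_ce2c94_gt.ck.DNum
import Pool.Agent.H.MP_ce2c94_gt.ck.DPos
import Pool.Agent.H.MP_ce2c94_gt.ck.APos
import Pool.Agent.H.MP_ce2c94_gt.ck.ANum

/-!
The two solutions from the existence parts and the positivity near the tables, and the final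
theorem from the two solutions.
-/

open Set

namespace Pool.MP_ce2c94_gt

open D3 D3W D3S D3E
open Pool.Agent.H.MP_ce2c94_gt.h46

/-- the background data of the second torus -/
noncomputable def DD.bg : Bg W := bgOf 3 (baseJ DD.cS).f (tabHat DD.cP DD.cQ DD.cZ)
  (tabHat DD.vP DD.vQ DD.vZ)

/-- the background data of the first torus -/
noncomputable def AD.bg : Bg W := bgOf 10 (baseJ AD.cS).f (tabHat AD.cP AD.cQ AD.cZ)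
  (tabHat AD.vP AD.vQ AD.vZ)

theorem DD.par7 : Par7 DD.cP DD.cQ DD.cZ DD.vP DD.vQ DD.vZ :=
  ⟨⟨rfl, rfl⟩, ⟨rfl, rfl⟩, ⟨rfl, rfl⟩, ⟨rfl, rfl⟩, ⟨rfl, rfl⟩, ⟨rfl, rfl⟩⟩

theorem AD.par7 : Par7 AD.cP AD.cQ AD.cZ AD.vP AD.vQ AD.vZ :=
  ⟨⟨rfl, rfl⟩, ⟨rfl, rfl⟩, ⟨rfl, rfl⟩, ⟨rfl, rfl⟩, ⟨rfl, rfl⟩, ⟨rfl, rfl⟩⟩

/-- the second torus -/
theorem DD.exists_sol (hZ : IsUnit DD.bg.s ∧ ∃ y ∈ WS, ‖y‖ ≤ DN.c.ρ ∧
      DD.bg.F (Bg.jt DN.c.P.D y) = 0) :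
    ∃ y, Sol (tabHat DD.cP DD.cQ DD.cZ) (tabHat DD.vP DD.vQ DD.vZ) 3 (baseJ DD.cS).f DN.P DN.c.ρ
      3 5 y :=
  D3.exists_sol (δ := 1 / 2 ^ 18) DD.par7 DN.Pok hZ DD.vbd (by decide +kernel) (by decide +kernel)
    (by decide +kernel) (by norm_num) fun h H hcl => DP.posW18 H (hcl.mono (by norm_num))

/-- the first torus -/
theorem AD.exists_sol (hZ : IsUnit AD.bg.s ∧ ∃ y ∈ WS, ‖y‖ ≤ AN.c.ρ ∧
      AD.bg.F (Bg.jt AN.c.P.D y) = 0) :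
    ∃ y, Sol (tabHat AD.cP AD.cQ AD.cZ) (tabHat AD.vP AD.vQ AD.vZ) 10 (baseJ AD.cS).f AN.P AN.c.ρ
      3 5 y :=
  D3.exists_sol (δ := 1 / 2 ^ 16) AD.par7 AN.Pok hZ AD.vbd (by decide +kernel) (by decide +kernel)
    (by decide +kernel) (by norm_num) fun h _ hcl => posW_A (hcl.mono (by norm_num))

/-- **The final theorem from the two solutions.** -/
theorem two_tori_of_sols {SA cA SB cB : ℝ}
    (A : ∃ y, Sol (tabHat AD.cP AD.cQ AD.cZ) (tabHat AD.vP AD.vQ AD.vZ) 10 (baseJ AD.cS).f AN.P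
      AN.c.ρ SA cA y)
    (B : ∃ y, Sol (tabHat DD.cP DD.cQ DD.cZ) (tabHat DD.vP DD.vQ DD.vZ) 3 (baseJ DD.cS).f DN.P
      DN.c.ρ SB cB y) :
    ∃ S T : Set E3, IsShrinkingTorus S ∧ IsShrinkingTorus T ∧
      ∀ g : E3 ≃ₗᵢ[ℝ] E3, g '' S ≠ T := by
  have h0 : (0 : ℚ) ≤ 457 / 100 - DN.P.d0 * DN.c.ρ * 15 := by decide +kernel
  have h : ((27 / 8 : ℚ) + AN.P.d0 * AN.c.ρ * 5) ^ 2 + (1 / 8 + AN.P.d0 * AN.c.ρ * 5) ^ 2 +
      (3 / 2 + AN.P.d0 * AN.c.ρ * 5) ^ 2 < (457 / 100 - DN.P.d0 * DN.c.ρ * 15) ^ 2 := by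
    decide +kernel
  refine main' A B (x1 := 27 / 8) (x2 := 1 / 8) (x3 := 3 / 2) (v1 := 5) (v2 := 5) (v3 := 5)
    (t := 457 / 100) (v := 15) AD.norm_P AD.norm_Q AD.norm_Z ?_ ?_ ?_ ?_ ?_ ?_ ?_
  · have := AD.vbd.P
    push_cast at this
    exact this
  · have := AD.vbd.Q
    push_cast at this
    exact this
  · have := AD.vbd.Z
    push_cast at this
    exact this
  · have := DD.P_orig
    push_cast at this
    exact this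
  · have := DD.vbd.P
    push_cast at this
    exact this
  · have : ((0 : ℚ) : ℝ) ≤ ((457 / 100 - DN.P.d0 * DN.c.ρ * 15 : ℚ) : ℝ) := by exact_mod_cast h0
    push_cast at this
    exact this
  · have : ((((27 / 8 : ℚ) + AN.P.d0 * AN.c.ρ * 5) ^ 2 + (1 / 8 + AN.P.d0 * AN.c.ρ * 5) ^ 2 +
      (3 / 2 + AN.P.d0 * AN.c.ρ * 5) ^ 2 : ℚ) : ℝ) <
      (((457 / 100 - DN.P.d0 * DN.c.ρ * 15) ^ 2 : ℚ) : ℝ) := by exact_mod_cast h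
    push_cast at this
    exact this

end Pool.MP_ce2c94_gt
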