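import Pool.Agent.H.MP_ce2c94_gt.ck.ASol
import Pool.Agent.H.MP_ce2c94_gt.ck.DSol

set_option autoImplicit false

/-!
Two shrinking tori which are not congruent.
-/

namespace Pool.MP_ce2c94_gt

open D3

/-- **There are two shrinking tori which are not congruent.** -/
theorem two_tori : ∃ S T : Set E3, IsShrinkingTorus S ∧ IsShrinkingTorus T ∧
    ∀ g : E3 ≃ₗᵢ[ℝ] E3, g '' S ≠ T :=
  two_tori_of_sols solA solD

end Pool.MP_ce2c94_gt
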